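import Pool.Agent.TH812.GV4.NoLine

/-!
The improved height inequality for curves in very general pairs without lines.
-/

set_option autoImplicit false

open MvPolynomial FF Pool.Agent.W603.LV Pool.Agent.W603.PV Pool.Agent.TH145.GH
  Pool.Agent.TH145.MG Pool.Agent.W602.GT Pool.Agent.W603.CZ

namespace Pool.Agent.TH812.GV4

open Pool.Agent.TH812.GV Pool.Agent.TH812.GV2 Pool.Agent.TH812.GV3

theorem final_gap {F0 k : Type} [Field F0] [Field k] [Algebra F0 k] [IsAlgClosed k] [CharZero k]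
    {n m : ℕ} {ι : Type} [Fintype ι] (hn : n = m + Fintype.card ι)
    (G : ι → MvPolynomial (Fin (n + 1)) F0) (e : ι → ℕ) (hG : ∀ j, (G j).IsHomogeneous (e j))
    {α : Type} [Fintype α] (H : α → MvPolynomial (Fin (n + 1)) k) (d : α → ℕ)
    (hH : ∀ a, (H a).IsHomogeneous (d a)) (I0 : α → Fin (n + 1) →₀ ℕ)
    (hI0 : ∀ a, (H a).coeff (I0 a) ≠ 0)
    (hgen : AlgebraicIndependent F0 fun p : {p : α × (Fin (n + 1) →₀ ℕ) //
      p.2.degree = d p.1 ∧ p.2 ≠ I0 p.1} => (H p.1.1).coeff p.1.2 / (H p.1.1).coeff (I0 p.1.1))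
    (E : Finset α)
    (hsm : ∀ y : Fin (n + 1) → k, y ≠ 0 → (∀ j, aeval y (G j) = 0) →
      (∀ a ∈ E, eval y (H a) = 0) →
      LinearIndependent k fun (j : ι) (l : Fin (n + 1)) => aeval y (pderiv l (G j)))
    (hz : E.card + 2 ≤ m) (hs : ∑ j, ((e j - 1 : ℕ) : ℤ) ≤ 1 ∨ E.card + 3 ≤ m)
    (hcE : 0 ≤ (∑ a ∈ E, (d a : ℤ)) + E.card - 2 * m + min 2 (∑ j, ((e j - 1 : ℕ) : ℤ)))
    {q : ℕ} (hq : 1 ≤ q) (heq : ∀ j, e j ≤ q) (hdq : ∀ a ∈ E, d a ≤ q)
    (L : Type) [Field L] [Algebra k L] [IsFF k L] (x : Fin (n + 1) → L)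
    (hnc : ∀ (c : L) (y : Fin (n + 1) → k), x ≠ c • fun l => algebraMap k L (y l))
    (hxG : ∀ j, aeval x (map (algebraMap F0 k) (G j)) = 0)
    (hxE : ∀ a, aeval x (H a) = 0 ↔ a ∈ E) :
    (q * ((∑ a, (d a : ℤ)) + E.card - 2 * m + min 2 (∑ j, ((e j - 1 : ℕ) : ℤ))) + 1) *
      pht k x ≤ q * ((meetsAny (k := k) (fun a : {a // a ∉ E} => H a) (fun a => d a) x).ncard +
        canDeg k L) := by
  classical
  have hL : CharZero L := charZero_of_injective_algebraMap (algebraMap k L).injective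
  have hx0 : x ≠ 0 := by
    intro h
    apply hnc 0 0
    rw [h, zero_smul]
  have := finite_Ix d I0
  have := Fintype.ofFinite (Ix d I0)
  let _ : Algebra F0 L := ((algebraMap k L).comp (algebraMap F0 k)).toAlgebra
  have hst : IsScalarTower F0 k L := IsScalarTower.of_algebraMap_eq fun _ => rfl
  -- normalised forms
  obtain ⟨Gk, hGk⟩ : ∃ Gk : α → MvPolynomial (Fin (n + 1)) k, ∀ a,
    Gk a = C ((H a).coeff (I0 a))⁻¹ * H a := ⟨_, fun _ => rfl⟩
  have hGc : ∀ a I, (Gk a).coeff I = (H a).coeff I / (H a).coeff (I0 a) := by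
    intro a I
    rw [hGk, coeff_C_mul, mul_comm, div_eq_mul_inv]
  have hG1 : ∀ a, (Gk a).coeff (I0 a) = 1 := fun a => by rw [hGc, div_self (hI0 a)]
  have hGh : ∀ a, (Gk a).IsHomogeneous (d a) := fun a => by
    rw [hGk]
    have := (isHomogeneous_C (Fin (n + 1)) ((H a).coeff (I0 a))⁻¹).mul (hH a)
    rwa [zero_add] at this
  obtain ⟨F, hF⟩ : ∃ F : α → MvPolynomial (Fin (n + 1)) L, ∀ a,
    F a = map (algebraMap k L) (Gk a) := ⟨_, fun _ => rfl⟩
  have hFc : ∀ a I, (F a).coeff I = algebraMap k L ((Gk a).coeff I) := fun a I => by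
    rw [hF, coeff_map]
  obtain ⟨Db, hDbs, hDbk, hDb⟩ := exists_duals3 (F0 := F0) (k := k) (L := L)
    (fun p : Ix d I0 => (Gk p.1.1).coeff p.1.2) (by
      have h1 : (fun p : Ix d I0 => (Gk p.1.1).coeff p.1.2) = fun p : Ix d I0 =>
          (H p.1.1).coeff p.1.2 / (H p.1.1).coeff (I0 p.1.1) := by
        funext p
        rw [hGc]
      rw [h1]
      exact hgen)
  obtain ⟨D, hD⟩ : ∃ D, D = sysD F d I0 Db := ⟨_, rfl⟩
  have hdual : DualS F d D (sysE I0) := hD ▸ sysD_dual (fun a => by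
      rw [hFc, hG1, map_one]) (fun b b' => by
      have h1 := hDb b b'
      rw [hFc]
      exact h1)
  have hsem : ∀ a I, Sem k (D a I) := by
    intro a I
    rw [hD]
    refine sysD_prop (Sem k) ?_ ?_ ?_ ?_ hDbs a I
    · intro c
      exact ⟨0, by rw [map_zero]; rfl⟩
    · intro D E h h' c
      obtain ⟨c1, h1⟩ := h c
      obtain ⟨c2, h2⟩ := h' c
      exact ⟨c1 + c2, by rw [Derivation.add_apply, h1, h2, map_add]⟩
    · intro q c
      obtain ⟨c1, h1⟩ := hDbs q c
      exact ⟨(Gk q.1.1).coeff q.1.2 * c1, by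
        rw [Derivation.smul_apply, h1, hFc, smul_eq_mul, map_mul]⟩
    · intro D h c
      obtain ⟨c1, h1⟩ := h c
      exact ⟨-c1, by rw [Derivation.neg_apply, h1, map_neg]⟩
  have hDk : ∀ a I (r : F0), D a I (algebraMap F0 L r) = 0 := by
    intro a I
    rw [hD]
    refine sysD_prop (fun D : Derivation ℤ L L => ∀ r : F0, D (algebraMap F0 L r) = 0) ?_ ?_ ?_ ?_
      hDbk a I
    · intro r; rfl
    · intro D E h h' r
      rw [Derivation.add_apply, h, h', add_zero]
    · intro q r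
      rw [Derivation.smul_apply, hDbk, smul_zero]
    · intro D h r
      rw [Derivation.neg_apply, h, neg_zero]
  have hsys : SysC k F d D (sysE I0) :=
    ⟨fun a => by rw [hF]; exact (hGh a).map _, hdual, fun a J => ⟨_, hFc a J⟩, hsem⟩
  have hae : ∀ (y : Fin (n + 1) → k) (p : MvPolynomial (Fin (n + 1)) F0),
      aeval y p = eval y (map (algebraMap F0 k) p) := fun y p => by
    rw [eval_map, aeval_def]
  have hsm' : ∀ y : Fin (n + 1) → k, y ≠ 0 → (∀ j, eval y (map (algebraMap F0 k) (G j)) = 0) →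
      (∀ b : {a // a ∈ E}, eval y (H b) = 0) → LinearIndependent k
        fun (j : ι) (l : Fin (n + 1)) => eval y (pderiv l (map (algebraMap F0 k) (G j))) := by
    intro y hy h h'
    have h1 := hsm y hy (fun j => by rw [hae]; exact h j) fun a ha => h' ⟨a, ha⟩
    simp only [hae] at h1
    simpa only [pderiv_map] using h1
  have hDG : ∀ a I j J, D a I (algebraMap k L ((map (algebraMap F0 k) (G j)).coeff J)) = 0 := by
    intro a I j J
    rw [coeff_map, ← IsScalarTower.algebraMap_apply]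
    exact hDk a I _
  have hxG' : ∀ j, eval x (map (algebraMap k L) (map (algebraMap F0 k) (G j))) = 0 := fun j => by
    have := hxG j
    rw [aeval_eq_eval_map] at this
    exact this
  have hxQ : ∀ b : {a // a ∈ E}, eval x (map (algebraMap k L) (H b)) = 0 := fun b => by
    have := (hxE b).2 b.2
    rw [aeval_eq_eval_map] at this
    exact this
  -- the values of the normalised forms
  have hval : ∀ a, eval x (F a) = algebraMap k L ((H a).coeff (I0 a))⁻¹ * aeval x (H a) := by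
    intro a
    rw [hF, hGk, map_mul, map_mul, map_C, eval_C, aeval_eq_eval_map]
  have hs0 : ∀ a, algebraMap k L ((H a).coeff (I0 a))⁻¹ ≠ 0 := fun a => by
    rw [Ne, map_eq_zero]; exact inv_ne_zero (hI0 a)
  have hiff : ∀ a, eval x (F a) = 0 ↔ aeval x (H a) = 0 := fun a => by
    rw [hval, mul_eq_zero]
    exact ⟨fun h => h.resolve_left (hs0 a), Or.inr⟩
  have hE1 : (Finset.univ.filter fun a => eval x (F a) = 0) = E := by
    ext a
    rw [Finset.mem_filter, hiff, hxE]
    exact ⟨fun h => h.2, fun h => ⟨Finset.mem_univ _, h⟩⟩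
  have key := gap_case hsys (fun j => map (algebraMap F0 k) (G j)) e (fun j => (hG j).map _)
    (fun b : {a // a ∈ E} => H b) (fun b => d b) (fun b => hH b) hsm' hDG hn hxG' hxQ hnc
    (by rw [hE1]; exact hz) (by rw [hE1]; exact hs) rfl rfl
  rw [hE1] at key
  obtain ⟨A, hA⟩ : ∃ A : Set (Place k L), A = meetsAny (k := k)
    (fun a : {a // a ∉ E} => H a) (fun a => d a) x := ⟨_, rfl⟩
  have hAfin : A.Finite := by
    have hp := pord_finite (k := k) (Function.ne_iff.1 hx0)
    have h1 : (⋃ a : α, {P : Place k L | P.ord (aeval x (H a)) ≠ 0}).Finite :=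
      Set.finite_iUnion fun a => finite_support _
    refine (h1.union hp).subset fun P hP => ?_
    by_contra hcon
    simp only [Set.mem_union, Set.mem_iUnion, Set.mem_ofPred_eq, not_or, not_exists, not_not] at hcon
    obtain ⟨h2, h3⟩ := hcon
    have h3' : pord P x = 0 := by
      by_contra h
      exact h3 h
    rw [hA] at hP
    obtain ⟨a, ha⟩ := hP
    rw [h3', mul_zero, h2 a.1] at ha
    exact lt_irrefl _ ha
  obtain ⟨cnt, hcnt⟩ : ∃ cnt : Place k L → ℤ, ∀ P, cnt P = if ∃ a,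
    eval x (F a) ≠ 0 ∧ d a * pord P x < P.ord (eval x (F a)) then 1 else 0 :=
    ⟨_, fun _ => rfl⟩
  simp only [← hcnt] at key
  have hcle : ∀ P, cnt P ≤ 1 := by
    intro P
    rw [hcnt]
    split_ifs <;> norm_num
  have hcsupp : ∀ P, cnt P ≠ 0 → P ∈ A := by
    intro P hP
    rw [hcnt] at hP
    obtain ⟨a, ha0, ha⟩ : ∃ a, eval x (F a) ≠ 0 ∧ d a * pord P x < P.ord (eval x (F a)) := by
      by_contra h
      rw [if_neg h] at hP
      exact hP rfl
    have haE : aeval x (H a) ≠ 0 := fun h => ha0 ((hiff a).2 h)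
    rw [hA]
    refine ⟨⟨a, fun h => haE ((hxE a).2 h)⟩, ?_⟩
    rw [hval, P.ord_mul (hs0 a) haE, P.ord_const (inv_ne_zero (hI0 a)), zero_add] at ha
    exact ha
  have h1 := finsum_le_card hAfin (M := 1) hcle hcsupp
  rw [one_mul] at h1
  rw [← hA]
  obtain ⟨c, hc⟩ : ∃ c : ℤ, c = (∑ a, (d a : ℤ)) + E.card - 2 * m +
    min 2 (∑ j, ((e j - 1 : ℕ) : ℤ)) := ⟨_, rfl⟩
  rw [← hc] at key ⊢
  obtain ⟨N, hN⟩ : ∃ N : ℤ, N = ∑ᶠ P, cnt P + canDeg k L := ⟨_, rfl⟩
  rw [← hN] at key
  have hNA : N ≤ (A.ncard : ℤ) + canDeg k L := by rw [hN]; linarith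
  have hh := pht_pos hnc
  have hq0 : (0 : ℤ) ≤ q := by positivity
  have hq1 : (1 : ℤ) ≤ q := by exact_mod_cast hq
  refine le_trans ?_ (mul_le_mul_of_nonneg_left hNA hq0)
  rcases key with key | ⟨y, i, j, hxj, hne, key⟩
  · have h2 := mul_le_mul_of_nonneg_left key hq0
    nlinarith
  · -- a form bounds the degree
    have hone : ∀ (Q : MvPolynomial (Fin (n + 1)) k) (r : ℕ), Q.IsHomogeneous r → r ≤ q →
        aeval x Q = 0 → (∀ t : k, aeval (fun l => (x i * y l - x l * y i) +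
          (x j * y l - x l * y j) * algebraMap k L t) Q = (0 : L)) ∨
        (q * c + 1) * pht k x ≤ q * N := by
      intro Q r hQ hr hxQ
      rcases key Q r hQ hxQ with h2 | h2
      · exact Or.inl h2
      · right
        have h3 : 0 ≤ N - c * pht k x := by
          by_contra hcon
          push Not at hcon
          have h4 : (r : ℤ) * (N - c * pht k x) ≤ 0 :=
            mul_nonpos_of_nonneg_of_nonpos (by positivity) hcon.le
          omega
        have h4 : (r : ℤ) * (N - c * pht k x) ≤ q * (N - c * pht k x) :=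
          mul_le_mul_of_nonneg_right (by exact_mod_cast hr) h3
        have h5 := h2.trans h4
        linarith
    by_contra hfin
    obtain ⟨p, p', hpi, hpj, hp'i, hp'j, hl⟩ := line_of_scroll (k := k) (x := x) (y := y) hne
    refine no_line hn G e hG H d hH I0 hI0 hgen E hsm hcE hpi hpj hp'i hp'j
      (fun b => hl _ ?_) (fun a ha => hl _ ?_)
    · exact (hone _ (e b) ((hG b).map _) (heq b) (hxG b)).resolve_right hfin
    · exact (hone _ (d a) (hH a) (hdq a ha) ((hxE a).2 ha)).resolve_right hfin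

end Pool.Agent.TH812.GV4
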