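import Pool.Agent.TH812.GV4.Gap
import Pool.Agent.W619.PQ.Curve
import Pool.Agent.W603.CX.Basic

/-!
Very general complete intersections with `c ≥ 0` contain no lines.
-/

set_option autoImplicit false

open MvPolynomial FF Pool.Agent.W603.LV Pool.Agent.W603.PV Pool.Agent.TH145.GH
  Pool.Agent.TH145.MG Pool.Agent.W602.GT Pool.Agent.W603.CZ

namespace Pool.Agent.TH812.GV4

open Pool.Agent.TH812.GV Pool.Agent.TH812.GV2 Pool.Agent.TH812.GV3

/-- A scroll of lines over a curve gives a line. -/
theorem line_of_scroll {k K : Type} [Field k] [Field K] [Algebra k K] [IsAlgClosed k]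
    [CharZero k] [IsFF k K] {n : ℕ} {x y : Fin (n + 1) → K} {i j : Fin (n + 1)}
    (hne : x j * y i - x i * y j ≠ 0) :
    ∃ p p' : Fin (n + 1) → k, p i ≠ 0 ∧ p j = 0 ∧ p' i = 0 ∧ p' j ≠ 0 ∧
      ∀ Q : MvPolynomial (Fin (n + 1)) k,
        (∀ t : k, aeval (fun l => (x i * y l - x l * y i) +
          (x j * y l - x l * y j) * algebraMap k K t) Q = (0 : K)) →
        aeval (fun l => algebraMap k (RatFunc k) (p' l) +
          algebraMap k (RatFunc k) (p l) * RatFunc.X) Q = (0 : RatFunc k) := by
  classical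
  obtain ⟨T1, hT1⟩ := exists_supp (k := k) (Finset.univ : Finset (Fin (n + 1)))
    (fun l => x j * y l - x l * y j)
  obtain ⟨T2, hT2⟩ := exists_supp (k := k) (Finset.univ : Finset (Fin (n + 1)))
    (fun l => x i * y l - x l * y i)
  obtain ⟨P, hP⟩ := exists_place_not_mem (k := k) (K := K) (T1 ∪ T2)
  rw [Finset.mem_union, not_or] at hP
  have h1 : ∀ l, P.ord (x j * y l - x l * y j) = 0 := fun l => by
    by_contra h
    exact hP.1 (hT1 l (Finset.mem_univ _) P h)
  have h2 : ∀ l, P.ord (x i * y l - x l * y i) = 0 := fun l => by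
    by_contra h
    exact hP.2 (hT2 l (Finset.mem_univ _) P h)
  have g1 : ∀ l, Ge P 0 (x j * y l - x l * y j) := fun l => Or.inr (h1 l).ge
  have g2 : ∀ l, Ge P 0 (x i * y l - x l * y i) := fun l => Or.inr (h2 l).ge
  choose p hp using fun l => exists_const P (g1 l)
  choose p' hp' using fun l => exists_const P (g2 l)
  have hz : ∀ c : k, Ge P 1 (0 - algebraMap k K c) → c = 0 := fun c hc => by
    rw [zero_sub] at hc
    have := hc.neg
    rw [neg_neg] at this
    exact const_zero P this
  have hnz : ∀ (c : k) (f : K), f ≠ 0 → P.ord f = 0 → Ge P 1 (f - algebraMap k K c) → c ≠ 0 := by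
    intro c f hf h0 h hc
    rw [hc, map_zero, sub_zero] at h
    have := h.resolve_left hf
    omega
  refine ⟨p, p', hnz _ _ hne (h1 i) (hp i), hz _ ?_, hz _ ?_, ?_, fun Q hQ => ?_⟩
  · have := hp j
    rwa [sub_self] at this
  · have := hp' i
    rwa [sub_self] at this
  · refine hnz _ (x i * y j - x j * y i) ?_ (h2 j) (hp' j)
    intro h
    apply hne
    linear_combination -h
  · -- the values at the constants
    have hval : ∀ t : k, eval (fun l => p' l + p l * t) Q = 0 := by
      intro t
      have e1 := hQ t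
      have e3 := red_mvaeval P (f := fun l => (x i * y l - x l * y i) +
          (x j * y l - x l * y j) * algebraMap k K t) (fun l => by
            have := (g1 l).mul (Ge.const (P := P) t)
            rw [add_zero] at this
            exact (g2 l).add this) (c := fun l => p' l + p l * t) (fun l => by
            have e4 := (hp l).mul (Ge.const (P := P) t)
            rw [add_zero] at e4
            have e5 := (hp' l).add e4
            rw [map_add, map_mul]
            convert e5 using 1
            ring) Q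
      rw [e1] at e3
      exact hz _ e3
    have hpoly : aeval (fun l => Polynomial.C (p' l) + Polynomial.C (p l) * Polynomial.X) Q =
        (0 : Polynomial k) := by
      refine Polynomial.funext fun t => ?_
      have e2 := MvPolynomial.comp_aeval_apply
        (f := fun l => Polynomial.C (p' l) + Polynomial.C (p l) * Polynomial.X)
        (Polynomial.aeval t : Polynomial k →ₐ[k] k) Q
      rw [Polynomial.coe_aeval_eq_eval] at e2
      rw [e2, Polynomial.eval_zero]
      have e3 := hval t
      rw [← MvPolynomial.coe_aeval_eq_eval] at e3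
      simpa using e3
    have e2 := MvPolynomial.comp_aeval_apply
      (f := fun l => Polynomial.C (p' l) + Polynomial.C (p l) * Polynomial.X)
      (IsScalarTower.toAlgHom k (Polynomial k) (RatFunc k)) Q
    rw [hpoly, map_zero] at e2
    rw [e2]
    congr 2
    funext l
    rw [map_add, map_mul]
    simp only [IsScalarTower.coe_toAlgHom', RatFunc.algebraMap_C, RatFunc.algebraMap_X]
    rfl

theorem canDeg_ratFunc {k : Type} [Field k] [IsAlgClosed k] [CharZero k] :
    canDeg k (RatFunc k) = -2 :=
  Pool.Agent.W619.PQ.canDeg_rational (x := (RatFunc.X : RatFunc k)) RatFunc.adjoin_X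

theorem no_line {F0 k : Type} [Field F0] [Field k] [Algebra F0 k] [IsAlgClosed k] [CharZero k]
    {n m : ℕ} {ι : Type} [Fintype ι] (hn : n = m + Fintype.card ι)
    (G : ι → MvPolynomial (Fin (n + 1)) F0) (e : ι → ℕ) (hG : ∀ j, (G j).IsHomogeneous (e j))
    {α : Type} [Fintype α] (H : α → MvPolynomial (Fin (n + 1)) k) (d : α → ℕ)
    (hH : ∀ a, (H a).IsHomogeneous (d a)) (I0 : α → Fin (n + 1) →₀ ℕ)
    (hI0 : ∀ a, (H a).coeff (I0 a) ≠ 0)
    (hgen : AlgebraicIndependent F0 fun p : {p : α × (Fin (n + 1) →₀ ℕ) //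
      p.2.degree = d p.1 ∧ p.2 ≠ I0 p.1} => (H p.1.1).coeff p.1.2 / (H p.1.1).coeff (I0 p.1.1))
    (E : Finset α)
    (hsm : ∀ y : Fin (n + 1) → k, y ≠ 0 → (∀ j, aeval y (G j) = 0) →
      (∀ a ∈ E, eval y (H a) = 0) →
      LinearIndependent k fun (j : ι) (l : Fin (n + 1)) => aeval y (pderiv l (G j)))
    (hc : 0 ≤ (∑ a ∈ E, (d a : ℤ)) + E.card - 2 * m + min 2 (∑ j, ((e j - 1 : ℕ) : ℤ)))
    {p p' : Fin (n + 1) → k} {i j : Fin (n + 1)} (hpi : p i ≠ 0) (hpj : p j = 0)
    (hp'i : p' i = 0) (hp'j : p' j ≠ 0)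
    (hlG : ∀ j, aeval (fun l => algebraMap k (RatFunc k) (p' l) +
          algebraMap k (RatFunc k) (p l) * RatFunc.X) (map (algebraMap F0 k) (G j)) =
            (0 : RatFunc k))
    (hlE : ∀ a ∈ E, aeval (fun l => algebraMap k (RatFunc k) (p' l) +
          algebraMap k (RatFunc k) (p l) * RatFunc.X) (H a) = (0 : RatFunc k)) : False := by
  classical
  have key := final hn G e hG (fun a : {a // a ∈ E} => H a) (fun a => d a) (fun a => hH a)
    (fun a => I0 a) (fun a => hI0 a)
    (hgen.comp (fun q : {p : {a // a ∈ E} × (Fin (n + 1) →₀ ℕ) //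
      p.2.degree = d p.1 ∧ p.2 ≠ I0 p.1} => ⟨(q.1.1.1, q.1.2), q.2⟩) (by
        rintro ⟨⟨⟨a, ha⟩, I⟩, hq⟩ ⟨⟨⟨a', ha'⟩, I'⟩, hq'⟩ h
        simp only [Subtype.mk.injEq, Prod.mk.injEq] at h ⊢
        exact h)) Finset.univ
    (fun y hy h1 h2 => hsm y hy h1 fun a ha => h2 ⟨a, ha⟩ (Finset.mem_univ _))
    (RatFunc k) (fun l => algebraMap k (RatFunc k) (p' l) +
      algebraMap k (RatFunc k) (p l) * RatFunc.X) (by
      intro c y h
      have e1 := congrFun h i
      have e2 := congrFun h j
      simp only [hpj, hp'i, map_zero, zero_mul, add_zero, zero_add, Pi.smul_apply,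
        smul_eq_mul] at e1 e2
      have hpj' : algebraMap k (RatFunc k) (p' j) ≠ 0 := by
        rw [Ne, map_eq_zero]; exact hp'j
      have hyj : algebraMap k (RatFunc k) (y j) ≠ 0 := by
        intro h0
        rw [h0, mul_zero] at e2
        exact hpj' e2
      have h3 : RatFunc.X * algebraMap k (RatFunc k) (p i * y j) =
          algebraMap k (RatFunc k) (p' j * y i) := by
        rw [map_mul, map_mul]
        linear_combination (algebraMap k (RatFunc k) (y j)) * e1 -
          (algebraMap k (RatFunc k) (y i)) * e2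
      have hpy : p i * y j ≠ 0 := mul_ne_zero hpi fun h0 => hyj (by rw [h0, map_zero])
      have h4 : (RatFunc.X : RatFunc k) = algebraMap k (RatFunc k) (p' j * y i / (p i * y j)) := by
        rw [map_div₀, ← h3, mul_div_cancel_right₀]
        rw [Ne, map_eq_zero]; exact hpy
      have h5 := RatFunc.transcendental_X (K := k)
      rw [h4] at h5
      exact h5 (isAlgebraic_algebraMap _)) hlG
    (fun a => ⟨fun _ => Finset.mem_univ _, fun _ => hlE a a.2⟩)
  obtain ⟨h1, h2, -⟩ := key
  have hemp : meetsAny (k := k) (fun a : {a : {a // a ∈ E} // a ∉ (Finset.univ : Finset _)} =>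
      H a) (fun a => d a) (fun l => algebraMap k (RatFunc k) (p' l) +
        algebraMap k (RatFunc k) (p l) * RatFunc.X) = ∅ := by
    rw [Set.eq_empty_iff_forall_notMem]
    rintro P ⟨a, -⟩
    exact a.2 (Finset.mem_univ _)
  rw [hemp, Set.ncard_empty, canDeg_ratFunc] at h2
  have h3 : (∑ a : {a // a ∈ E}, (d a : ℤ)) = ∑ a ∈ E, (d a : ℤ) :=
    Finset.sum_coe_sort E fun a => (d a : ℤ)
  have h4 : ((Finset.univ : Finset {a // a ∈ E}).card : ℤ) = E.card := by
    rw [Finset.card_univ, Fintype.card_coe]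
  rw [h3, h4] at h2
  have h5 := mul_nonneg hc (by omega : 0 ≤ pht k (fun l => algebraMap k (RatFunc k) (p' l) +
        algebraMap k (RatFunc k) (p l) * RatFunc.X))
  push_cast at h2
  omega

end Pool.Agent.TH812.GV4
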