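import Pool.Agent.TH812.GV3.Final

/-!
The scroll of lines of a curve in a very general complete intersection: a form that vanishes on the
curve but not on the lines bounds the degree of the curve.
-/

set_option autoImplicit false

open MvPolynomial FF Pool.Agent.W603.LV Pool.Agent.W603.PV Pool.Agent.TH145.GH

namespace Pool.Agent.TH812.GV4

open Pool.Agent.TH812.GV Pool.Agent.TH812.GV2 Pool.Agent.TH812.GV3

section poly

variable {k K : Type} [Field k] [Field K] [Algebra k K]

/-- Values of a polynomial at congruent vectors. -/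
theorem aeval_congr_ge (P : Place k K) {n : ℕ} (p : MvPolynomial (Fin (n + 1)) k)
    {x y : Fin (n + 1) → K} {s : ℤ} (hx : ∀ l, Ge P 0 (x l)) (hy : ∀ l, Ge P 0 (y l))
    (hxy : ∀ l, Ge P s (x l - y l)) :
    Ge P 0 (aeval x p) ∧ Ge P 0 (aeval y p) ∧ Ge P s (aeval x p - aeval y p) := by
  induction p using MvPolynomial.induction_on with
  | C a =>
    simp only [aeval_C, sub_self]
    exact ⟨Ge.const a, Ge.const a, Ge.zero⟩
  | add p q hp hq =>
    simp only [map_add]
    refine ⟨hp.1.add hq.1, hp.2.1.add hq.2.1, ?_⟩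
    have := hp.2.2.add hq.2.2
    convert this using 1
    ring
  | mul_X p i hp =>
    simp only [map_mul, aeval_X]
    have h1 := hp.1.mul (hx i)
    have h2 := hp.2.1.mul (hy i)
    have h3 := hp.2.2.mul (hx i)
    have h4 := hp.2.1.mul (hxy i)
    rw [add_zero] at h1 h2 h3
    rw [zero_add] at h4
    refine ⟨h1, h2, ?_⟩
    have := h3.add h4
    convert this using 1
    ring

theorem aeval_smul_hom {n : ℕ} {Q : MvPolynomial (Fin (n + 1)) k} {q : ℕ}
    (hQ : Q.IsHomogeneous q) (x : Fin (n + 1) → K) (c : K) :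
    aeval (c • x) Q = c ^ q * aeval x Q := by
  rw [aeval_eq_eval_map, aeval_eq_eval_map]
  exact eval_smul_hom (hQ.map (algebraMap k K)) _ _

/-- The local estimate for the value of a form at a point of the line. -/
theorem line_ord (P : Place k K) {n : ℕ} {Q : MvPolynomial (Fin (n + 1)) k} {q : ℕ}
    (hQ : Q.IsHomogeneous q) {x y : Fin (n + 1) → K} (hx : x ≠ 0) (hxQ : aeval x Q = 0) {g : ℤ}
    (hb : ∀ i' j', Ge P g (x j' * y i' - x i' * y j')) {i j : Fin (n + 1)} (t : k)
    (hu : x i + x j * algebraMap k K t ≠ 0)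
    (hne : aeval (fun l => (x i * y l - x l * y i) + (x j * y l - x l * y j) *
      algebraMap k K t) Q ≠ (0 : K)) :
    q * g - pord P x ≤ P.ord (aeval (fun l => (x i * y l - x l * y i) +
      (x j * y l - x l * y j) * algebraMap k K t) Q / (x i + x j * algebraMap k K t)) := by
  obtain ⟨l', hl', hl'P⟩ := exists_pord P (Function.ne_iff.1 hx)
  have hl0 : x l' ≠ 0 := hl'
  obtain ⟨u, hud⟩ : ∃ u : K, u = x i + x j * algebraMap k K t := ⟨_, rfl⟩
  rw [← hud] at hu ⊢
  obtain ⟨y', hy'⟩ : ∃ y' : Fin (n + 1) → K, ∀ l, y' l = (x l' * y l - x l * y l') * (x l')⁻¹ :=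
    ⟨_, fun _ => rfl⟩
  have hy'P : ∀ l, Ge P (g - pord P x) (y' l) := by
    intro l
    have h1 : Ge P (-pord P x) (x l')⁻¹ := Or.inr (by rw [P.ord_inv, hl'P])
    rw [hy', sub_eq_add_neg]
    exact (hb l l').mul h1
  have hxP : ∀ l, Ge P (pord P x) (x l) := fun l => ge_pord P x l
  obtain ⟨v, hvd⟩ : ∃ v : K, v = y' i + y' j * algebraMap k K t := ⟨_, rfl⟩
  have hvP : Ge P (g - pord P x) v := by
    have := (hy'P j).mul (Ge.const (P := P) t)
    rw [add_zero] at this
    rw [hvd]
    exact (hy'P i).add this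
  have huP : Ge P (pord P x) u := by
    have := (hxP j).mul (Ge.const (P := P) t)
    rw [add_zero] at this
    rw [hud]
    exact (hxP i).add this
  have hμ := huP.resolve_left hu
  have hw : (fun l => (x i * y l - x l * y i) + (x j * y l - x l * y j) *
      algebraMap k K t) = fun l => u * y' l - v * x l := by
    funext l
    rw [hvd, hud, hy', hy', hy']
    field_simp
    ring
  rw [hw] at hne ⊢
  obtain ⟨π, hπd⟩ : ∃ π : K, π = unif P := ⟨_, rfl⟩
  have hπ1 : P.ord π = 1 := by rw [hπd]; exact ord_unif P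
  have hπ0 : π ≠ 0 := by
    rintro rfl
    rw [P.ord_zero] at hπ1
    omega
  have hzp : Ge P (-g) (π ^ (-g)) := Or.inr (by rw [P.ord_zpow, hπ1, mul_one])
  obtain ⟨z, hzd⟩ : ∃ z : Fin (n + 1) → K, z = π ^ (-g) • fun l => u * y' l - v * x l := ⟨_, rfl⟩
  obtain ⟨b, hbd⟩ : ∃ b : Fin (n + 1) → K, b = (π ^ (-g) * -v) • x := ⟨_, rfl⟩
  have hbP : ∀ l, Ge P 0 (b l) := by
    intro l
    rw [hbd, Pi.smul_apply, smul_eq_mul]
    refine ((hzp.mul hvP.neg).mul (hxP l)).mono (le_of_eq ?_)
    ring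
  have hzb : ∀ l, Ge P (P.ord u - pord P x) (z l - b l) := by
    intro l
    have h1 : z l - b l = π ^ (-g) * (u * y' l) := by
      rw [hzd, hbd, Pi.smul_apply, Pi.smul_apply, smul_eq_mul, smul_eq_mul]
      ring
    rw [h1]
    have huu : Ge P (P.ord u) u := Or.inr le_rfl
    refine (hzp.mul (huu.mul (hy'P l))).mono (le_of_eq ?_)
    ring
  have hzP : ∀ l, Ge P 0 (z l) := by
    intro l
    have h1 : z l = (z l - b l) + b l := by ring
    rw [h1]
    exact ((hzb l).mono (by omega)).add (hbP l)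
  have h1 := (aeval_congr_ge P Q hzP hbP hzb).2.2
  rw [hbd, aeval_smul_hom hQ, hxQ, mul_zero, sub_zero, hzd, aeval_smul_hom hQ] at h1
  have h2 := h1.resolve_left (mul_ne_zero (pow_ne_zero _ (zpow_ne_zero _ hπ0)) hne)
  rw [P.ord_mul (pow_ne_zero _ (zpow_ne_zero _ hπ0)) hne, P.ord_pow, P.ord_zpow, hπ1] at h2
  rw [P.ord_div hne hu]
  linarith

end poly

variable {k K : Type} [Field k] [Field K] [Algebra k K] [IsAlgClosed k] [CharZero k] [IsFF k K]
  {n : ℕ} {α : Type} {d : α → ℕ} {D : α → (Fin (n + 1) →₀ ℕ) → Derivation ℤ K K}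

/-- The global inequality with a multiple of the canonical divisor. -/
theorem global_mul {E : Derivation k K K} (hE : E ≠ 0) {x : Fin (n + 1) → K} (hx : x ≠ 0)
    (A r : ℤ) (Θ : K) (cnt : Place k K → ℤ) (hcfin : {P | cnt P ≠ 0}.Finite)
    (hloc : ∀ P, A * pord P x + r * (vo P E - cnt P) ≤ P.ord Θ) :
    -A * pht k x ≤ r * (∑ᶠ P, cnt P + canDeg k K) := by
  classical
  have hp := pord_finite (k := k) (Function.ne_iff.1 hx)
  have hv := vo_finite hE
  obtain ⟨T1, hT1⟩ := exists_supp (k := k) (Finset.univ : Finset Unit) (fun _ => Θ)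
  obtain ⟨U, hU⟩ : ∃ U : Finset (Place k K),
    U = (T1 ∪ hv.toFinset) ∪ (hp.toFinset ∪ hcfin.toFinset) := ⟨_, rfl⟩
  have g1 : ∑ P ∈ U, P.ord Θ = 0 := sum_ord_finset _ _ fun P hP => by
    rw [hU]
    exact Finset.mem_union_left _ (Finset.mem_union_left _ (hT1 () (Finset.mem_univ _) P hP))
  have g2 : pht k x = - ∑ P ∈ U, pord P x := by
    unfold pht
    rw [finsum_eq_sum_of_support_subset (s := U)]
    intro P hP
    rw [hU]
    exact Finset.mem_union_right _ (Finset.mem_union_left _ (hp.mem_toFinset.2 hP))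
  have g3 : ∑ᶠ P, cnt P = ∑ P ∈ U, cnt P := by
    rw [finsum_eq_sum_of_support_subset (s := U)]
    intro P hP
    rw [hU]
    exact Finset.mem_union_right _ (Finset.mem_union_right _ (hcfin.mem_toFinset.2 hP))
  have g5 : ∑ P ∈ U, vo P E = - canDeg k K := canDeg_finset hE U fun P hP => by
    rw [hU]
    exact Finset.mem_union_left _ (Finset.mem_union_right _ (hv.mem_toFinset.2 hP))
  have g4 := Finset.sum_le_sum (s := U) fun P _ => hloc P
  rw [Finset.sum_add_distrib, ← Finset.mul_sum, ← Finset.mul_sum, Finset.sum_sub_distrib, g1, g5,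
    ← g3] at g4
  rw [g2]
  have : -A * - ∑ P ∈ U, pord P x = A * ∑ P ∈ U, pord P x := by ring
  rw [this]
  linarith

/-- A generator of level two gives a line through each point of the curve. -/
theorem scroll_of_de {E : Derivation k K K} {x : Fin (n + 1) → K}
    {l0 : Fin (n + 1)} {A : ℤ} {cnt : Place k K → ℤ}
    {b0 : Matrix (Fin (n + 1)) (Fin (n + 1)) K} (hb0d : b0.det ≠ 0) {R : K} (hR : R ≠ 0)
    {ts : Fin (n + 1)} {a : α} {M : Fin (n + 1) →₀ ℕ} {i j : Fin (n + 1)}
    (hts : b0 ts = gw d D x l0 (Gn.de a M i j))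
    (hloc' : ∀ i' j', (b0.updateRow ts (gw d D x l0 (Gn.de a M i' j'))).det ≠ 0 → ∀ P,
      A * pord P x - cnt P + vo P E ≤
        P.ord ((b0.updateRow ts (gw d D x l0 (Gn.de a M i' j'))).det / R)) :
    ∃ (y : Fin (n + 1) → K) (i j : Fin (n + 1)), x j ≠ 0 ∧ x j * y i - x i * y j ≠ 0 ∧
      ∀ i' j' P, Ge P (A * pord P x - cnt P + vo P E) (x j' * y i' - x i' * y j') := by
  classical
  have hM : M.degree + 1 = d a := by
    by_contra hM
    apply hb0d
    refine Matrix.det_eq_zero_of_row_eq_zero ts fun l => ?_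
    rw [hts, de_zero hM]
    rfl
  obtain ⟨φ, hφ⟩ := exists_lin b0 ts
  obtain ⟨f, hf⟩ : ∃ f : Fin (n + 1) → K, ∀ l, f l =
    φ (fun l' => D a (M + Finsupp.single l 1) (x l')) := ⟨_, fun _ => rfl⟩
  have hφde : ∀ i' j', φ (gw d D x l0 (Gn.de a M i' j')) = x j' * f i' - x i' * f j' := by
    intro i' j'
    have h2 : gw d D x l0 (Gn.de a M i' j') =
        x j' • (fun l => D a (M + Finsupp.single i' 1) (x l)) -
          x i' • (fun l => D a (M + Finsupp.single j' 1) (x l)) := by
      funext l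
      simp only [gw, if_pos hM, Pi.sub_apply, Pi.smul_apply, smul_eq_mul]
    rw [h2, map_sub, map_smul, map_smul, ← hf, ← hf]
    rfl
  obtain ⟨y, hy⟩ : ∃ y : Fin (n + 1) → K, ∀ l, y l = f l / R := ⟨_, fun _ => rfl⟩
  have hyd : ∀ i' j', x j' * y i' - x i' * y j' =
      (b0.updateRow ts (gw d D x l0 (Gn.de a M i' j'))).det / R := by
    intro i' j'
    rw [← hφ, hφde, hy, hy]
    ring
  have hne : x j * y i - x i * y j ≠ 0 := by
    rw [hyd, ← hts, Matrix.updateRow_eq_self]
    exact div_ne_zero hb0d hR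
  have hbd : ∀ i' j' P, Ge P (A * pord P x - cnt P + vo P E) (x j' * y i' - x i' * y j') := by
    intro i' j' P
    by_cases h0 : (b0.updateRow ts (gw d D x l0 (Gn.de a M i' j'))).det = 0
    · left
      rw [hyd, h0, zero_div]
    · right
      rw [hyd]
      exact hloc' i' j' h0 P
  by_cases hxj : x j = 0
  · refine ⟨y, j, i, ?_, ?_, hbd⟩
    · intro hxi
      apply hne
      rw [hxj, hxi]
      ring
    · intro h
      apply hne
      linear_combination -h
  · exact ⟨y, i, j, hxj, hne, hbd⟩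

/-- A form that vanishes on the curve and not on the lines bounds the degree. -/
theorem gap_line {E : Derivation k K K} (hE : E ≠ 0) {x y : Fin (n + 1) → K} {A : ℤ}
    {cnt : Place k K → ℤ} (hcfin : {P | cnt P ≠ 0}.Finite) (hx : x ≠ 0) (i j : Fin (n + 1))
    (hb : ∀ i' j' P, Ge P (A * pord P x - cnt P + vo P E) (x j' * y i' - x i' * y j'))
    {Q : MvPolynomial (Fin (n + 1)) k} {q : ℕ} (hQ : Q.IsHomogeneous q) (hxQ : aeval x Q = 0) :
    (∀ t : k, aeval (fun l => (x i * y l - x l * y i) +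
      (x j * y l - x l * y j) * algebraMap k K t) Q = (0 : K)) ∨
    pht k x ≤ q * (∑ᶠ P, cnt P + canDeg k K + A * pht k x) := by
  classical
  rw [or_iff_not_imp_left]
  intro hcon
  push Not at hcon
  obtain ⟨t, ht⟩ := hcon
  have hu : x i + x j * algebraMap k K t ≠ 0 := by
    intro h0
    apply ht
    have h1 : (fun l => (x i * y l - x l * y i) + (x j * y l - x l * y j) * algebraMap k K t) =
        (-(y i + y j * algebraMap k K t)) • x := by
      funext l
      rw [Pi.smul_apply, smul_eq_mul]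
      linear_combination (y l) * h0
    rw [h1, aeval_smul_hom hQ, hxQ, mul_zero]
  have key : ∀ P, (q * A - 1) * pord P x + q * (vo P E - cnt P) ≤
      P.ord (aeval (fun l => (x i * y l - x l * y i) +
        (x j * y l - x l * y j) * algebraMap k K t) Q / (x i + x j * algebraMap k K t)) := by
    intro P
    have h1 := line_ord P hQ hx hxQ (fun i' j' => hb i' j' P) t hu ht
    refine le_trans (le_of_eq ?_) h1
    ring
  have h1 := global_mul hE hx _ _ _ cnt hcfin key
  linarith

end Pool.Agent.TH812.GV4
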